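import Mathlib

set_option autoImplicit false

namespace Pool.Agent.Results.MP_0479e2_co.EdgeBound

open Finset

/-- combinatorial core: `p`-wise intersecting rows without a common column -/
lemma core {A B : Type*} [DecidableEq A] [DecidableEq B] (Bs : Finset B) (M : A → Finset B)
    (p q : ℕ) (hpq : q + 1 ≤ p) :
    ∀ (k : ℕ) (X : Finset A), X.card = k →
      (∀ S ⊆ X, S.card ≤ p → ∃ y ∈ Bs, ∀ x ∈ S, y ∈ M x) →
      (∀ y ∈ Bs, ∃ x ∈ X, y ∉ M x) →
      p * X.card ≤ ∑ y ∈ Bs, ((X.filter (fun x => y ∈ M x)).card - q) + (p + 1) * q := by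
  intro k
  induction k with
  | zero =>
    intro X hX _ _
    rw [hX]; simp
  | succ k ih =>
    intro X hX hP hnc
    have hXp : p + 1 ≤ X.card := by
      by_contra hcon
      obtain ⟨y, hy, hall⟩ := hP X (Finset.Subset.refl _) (by omega)
      obtain ⟨x, hx, hxy⟩ := hnc y hy
      exact hxy (hall x hx)
    by_cases hc : ∃ z ∈ X, ∀ y ∈ Bs, ∃ x ∈ X.erase z, y ∉ M x
    · obtain ⟨z, hz, hnc'⟩ := hc
      have hcard : (X.erase z).card = k := by rw [Finset.card_erase_of_mem hz, hX]; rfl
      have hIH := ih (X.erase z) hcard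
        (fun S hS hSp => hP S (hS.trans (Finset.erase_subset _ _)) hSp) hnc'
      set U := (Bs.filter (fun y => y ∈ M z ∧ q ≤ ((X.erase z).filter (fun x => y ∈ M x)).card))
        with hU
      have hUp : p ≤ U.card := by
        by_contra hcon
        push Not at hcon
        have : Nonempty A := ⟨z⟩
        choose! f hf using hnc'
        have hS0 : insert z (U.image f) ⊆ X := by
          intro x hx
          rw [Finset.mem_insert, Finset.mem_image] at hx
          rcases hx with rfl | ⟨y, hy, rfl⟩
          · exact hz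
          · rw [hU, Finset.mem_filter] at hy
            exact Finset.mem_of_mem_erase (hf y hy.1).1
        have hS0c : (insert z (U.image f)).card ≤ p := by
          refine (Finset.card_insert_le _ _).trans ?_
          have := Finset.card_image_le (s := U) (f := f)
          omega
        obtain ⟨S, hS0S, hSX, hSc⟩ := Finset.exists_subsuperset_card_eq hS0 hS0c (by omega)
        obtain ⟨y, hy, hall⟩ := hP S hSX hSc.le
        have hzS : z ∈ S := hS0S (Finset.mem_insert_self _ _)
        have hyU : y ∈ U := by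
          rw [hU, Finset.mem_filter]
          refine ⟨hy, hall z hzS, ?_⟩
          have hsub : S.erase z ⊆ (X.erase z).filter (fun x => y ∈ M x) := by
            intro x hx
            rw [Finset.mem_erase] at hx
            rw [Finset.mem_filter, Finset.mem_erase]
            exact ⟨⟨hx.1, hSX hx.2⟩, hall x hx.2⟩
          have h1 := Finset.card_le_card hsub
          rw [Finset.card_erase_of_mem hzS, hSc] at h1
          omega
        have h2 : f y ∈ S := hS0S (Finset.mem_insert_of_mem (Finset.mem_image_of_mem f hyU))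
        exact (hf y hy).2 (hall _ h2)
      have hsum : ∑ y ∈ Bs, (((X.erase z).filter (fun x => y ∈ M x)).card - q) + U.card ≤
          ∑ y ∈ Bs, ((X.filter (fun x => y ∈ M x)).card - q) := by
        rw [hU, Finset.card_filter, ← Finset.sum_add_distrib]
        apply Finset.sum_le_sum
        intro y _
        have hfe : (X.erase z).filter (fun x => y ∈ M x) = (X.filter (fun x => y ∈ M x)).erase z := by
          rw [Finset.filter_erase]
        split_ifs with hyc
        · obtain ⟨hyz, hyq⟩ := hyc
          have hzf : z ∈ X.filter (fun x => y ∈ M x) := Finset.mem_filter.mpr ⟨hz, hyz⟩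
          have h3 : ((X.erase z).filter (fun x => y ∈ M x)).card + 1 =
              (X.filter (fun x => y ∈ M x)).card := by
            rw [hfe]
            exact Finset.card_erase_add_one hzf
          omega
        · have h3 : ((X.erase z).filter (fun x => y ∈ M x)).card ≤
              (X.filter (fun x => y ∈ M x)).card := by
            rw [hfe]
            exact Finset.card_le_card (Finset.erase_subset _ _)
          omega
      rw [hcard] at hIH
      rw [hX, mul_add, mul_one]
      omega
    · push Not at hc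
      have : Nonempty B := by
        obtain ⟨z0, hz0⟩ := Finset.card_pos.mp (show 0 < X.card by omega)
        obtain ⟨y, _, _⟩ := hc z0 hz0
        exact ⟨y⟩
      choose! g hg using hc
      have hginj : Set.InjOn g (X : Set A) := by
        intro z hz z' hz' hzz
        by_contra hne
        have h1 : g z ∈ M z' := (hg z hz).2 z' (Finset.mem_erase.mpr ⟨fun h => hne h.symm, hz'⟩)
        obtain ⟨x, hx, hxn⟩ := hnc (g z') (hg z' hz').1
        have hxz' : x = z' := by
          by_contra hxz
          exact hxn ((hg z' hz').2 x (Finset.mem_erase.mpr ⟨hxz, hx⟩))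
        rw [hxz', ← hzz] at hxn
        exact hxn h1
      have hdeg : ∀ z ∈ X, (X.filter (fun x => g z ∈ M x)).card = k := by
        intro z hz
        have : X.filter (fun x => g z ∈ M x) = X.erase z := by
          ext x
          rw [Finset.mem_filter, Finset.mem_erase]
          constructor
          · rintro ⟨hx, hxm⟩
            refine ⟨?_, hx⟩
            rintro rfl
            obtain ⟨x', hx', hxn⟩ := hnc (g x) (hg x hz).1
            by_cases hxx : x' = x
            · rw [hxx] at hxn; exact hxn hxm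
            · exact hxn ((hg x hz).2 x' (Finset.mem_erase.mpr ⟨hxx, hx'⟩))
          · rintro ⟨hne, hx⟩
            exact ⟨hx, (hg z hz).2 x (Finset.mem_erase.mpr ⟨hne, hx⟩)⟩
        rw [this, Finset.card_erase_of_mem hz, hX]; rfl
      have hsub : X.image g ⊆ Bs := by
        intro y hy
        rw [Finset.mem_image] at hy
        obtain ⟨z, hz, rfl⟩ := hy
        exact (hg z hz).1
      have h1 : ∑ y ∈ X.image g, ((X.filter (fun x => y ∈ M x)).card - q) ≤
          ∑ y ∈ Bs, ((X.filter (fun x => y ∈ M x)).card - q) :=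
        Finset.sum_le_sum_of_subset hsub
      rw [Finset.sum_image hginj, Finset.sum_congr rfl (fun z hz => by rw [hdeg z hz]),
        Finset.sum_const, smul_eq_mul, hX] at h1
      refine le_trans ?_ (Nat.add_le_add_right h1 _)
      rw [hX]
      obtain ⟨c, hc⟩ : ∃ c, k = p + c := ⟨k - p, by omega⟩
      obtain ⟨e, he⟩ : ∃ e, p = q + 1 + e := ⟨p - (q + 1), by omega⟩
      subst hc
      have h4 : p + c - q = 1 + e + c := by omega
      rw [h4]
      subst he
      nlinarith [Nat.zero_le (c * e), Nat.zero_le (c * c), Nat.zero_le (c * q)]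

/-- edge bound for a bipartition with `q + 1 ≤ p` -/
lemma half {V : Type*} [Fintype V] [DecidableEq V] (G : SimpleGraph V) [DecidableRel G.Adj]
    (s t : Finset V) (h : G.IsBipartiteWith (s : Set V) (t : Set V))
    (hiso : ∀ v, ∃ w, G.Adj v w) (p q : ℕ) (hpq : q + 1 ≤ p)
    (hp : ∀ S ⊆ s, S.card ≤ p → ∃ y ∈ t, ∀ x ∈ S, ¬ G.Adj x y)
    (hq : ∀ S ⊆ t, S.card ≤ q → ∃ x ∈ s, ∀ y ∈ S, ¬ G.Adj x y) :
    (G.edgeFinset.card : ℤ) ≤ ((s.card : ℤ) - q) * ((t.card : ℤ) - p) + q := by
  have hcore := core t (fun x => t.filter (fun y => ¬ G.Adj x y)) p q hpq s.card s rfl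
    (by
      intro S hS hSp
      obtain ⟨y, hy, hall⟩ := hp S hS hSp
      exact ⟨y, hy, fun x hx => Finset.mem_filter.mpr ⟨hy, hall x hx⟩⟩)
    (by
      intro y hy
      obtain ⟨w, hw⟩ := hiso y
      refine ⟨w, ?_, ?_⟩
      · exact h.symm.mem_of_mem_adj (Finset.mem_coe.mpr hy) hw
      · rw [Finset.mem_filter]
        rintro ⟨_, hn⟩
        exact hn hw.symm)
  have hdeg : ∀ y ∈ t, (s.filter (fun x => y ∈ t.filter (fun y => ¬ G.Adj x y))).card =
      s.card - G.degree y ∧ G.degree y + q ≤ s.card := by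
    intro y hy
    have hN : G.neighborFinset y = s.filter (fun x => G.Adj x y) := by
      ext x
      rw [SimpleGraph.mem_neighborFinset, Finset.mem_filter]
      constructor
      · intro hadj
        exact ⟨h.symm.mem_of_mem_adj (Finset.mem_coe.mpr hy) hadj, hadj.symm⟩
      · rintro ⟨_, hadj⟩
        exact hadj.symm
    have h1 : s.filter (fun x => y ∈ t.filter (fun y => ¬ G.Adj x y)) =
        s.filter (fun x => ¬ G.Adj x y) := by
      apply Finset.filter_congr
      intro x _
      rw [Finset.mem_filter]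
      exact ⟨fun hh => hh.2, fun hh => ⟨hy, hh⟩⟩
    have h2 := Finset.card_filter_add_card_filter_not (s := s) (fun x => G.Adj x y)
    rw [← hN, SimpleGraph.card_neighborFinset_eq_degree] at h2
    refine ⟨by rw [h1]; omega, ?_⟩
    by_contra hcon
    push Not at hcon
    choose f hf using hiso
    have hSc : (insert y ((s.filter (fun x => ¬ G.Adj x y)).image f)).card ≤ q := by
      refine (Finset.card_insert_le _ _).trans ?_
      have := Finset.card_image_le (s := s.filter (fun x => ¬ G.Adj x y)) (f := f)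
      omega
    have hSt : insert y ((s.filter (fun x => ¬ G.Adj x y)).image f) ⊆ t := by
      intro v hv
      rw [Finset.mem_insert, Finset.mem_image] at hv
      rcases hv with rfl | ⟨x, hx, rfl⟩
      · exact hy
      · rw [Finset.mem_filter] at hx
        exact h.mem_of_mem_adj (Finset.mem_coe.mpr hx.1) (hf x)
    obtain ⟨x, hx, hall⟩ := hq _ hSt hSc
    by_cases hxy : G.Adj x y
    · exact hall y (Finset.mem_insert_self _ _) hxy
    · exact hall (f x) (Finset.mem_insert_of_mem (Finset.mem_image_of_mem f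
        (Finset.mem_filter.mpr ⟨hx, hxy⟩))) (hf x)
  have hsum : ∑ y ∈ t, ((s.filter (fun x => y ∈ t.filter (fun y => ¬ G.Adj x y))).card - q) +
      (G.edgeFinset.card + t.card * q) = t.card * s.card := by
    rw [← SimpleGraph.isBipartiteWith_sum_degrees_eq_card_edges' h, ← smul_eq_mul t.card q,
      ← Finset.sum_const, ← Finset.sum_add_distrib, ← Finset.sum_add_distrib,
      ← smul_eq_mul t.card s.card, ← Finset.sum_const]
    apply Finset.sum_congr rfl
    intro y hy
    obtain ⟨h1, h2⟩ := hdeg y hy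
    rw [h1]
    omega
  zify at hcore hsum
  nlinarith

/-- **Main theorem.** -/
theorem result {V : Type*} [Fintype V] (G : SimpleGraph V) (hbip : G.IsBipartite)
    (hiso : ∀ v, ∃ w, G.Adj v w) (n m γ : ℕ) (hn : n = Fintype.card V)
    (hm : m = G.edgeSet.ncard)
    (hγ : IsLeast {k : ℕ | ∃ S : Finset V, S.card = k ∧ ∀ v, ∃ u ∈ S, G.Adj v u} γ)
    (hodd : Odd γ) (h3 : 3 ≤ γ) :
    (m : ℤ) ≤ ⌊(((n : ℝ) - γ) * ((n : ℝ) - γ + 4) + 2 * γ - 2) / 4⌋ := by
  classical
  obtain ⟨s', t', h'⟩ := hbip.exists_isBipartiteWith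
  obtain ⟨s, hs⟩ : ∃ s : Finset V, (s : Set V) = s' := ⟨s'.toFinset, by simp⟩
  obtain ⟨t, ht⟩ : ∃ t : Finset V, (t : Set V) = t' := ⟨t'.toFinset, by simp⟩
  subst hs
  subst ht
  have hcover : ∀ v, v ∈ s ∨ v ∈ t := by
    intro v
    obtain ⟨w, hw⟩ := hiso v
    rcases h'.mem_of_adj hw with ⟨h1, _⟩ | ⟨h1, _⟩
    · exact Or.inl h1
    · exact Or.inr h1
  have hdisj : Disjoint s t := Finset.disjoint_coe.mp h'.disjoint
  have hst : s ∪ t = Finset.univ := by
    ext v
    simp only [Finset.mem_union, Finset.mem_univ, iff_true]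
    exact hcover v
  have hcard : s.card + t.card = n := by
    rw [hn, ← Finset.card_univ, ← hst, Finset.card_union_of_disjoint hdisj]
  have hedge : m = G.edgeFinset.card := by
    rw [hm, ← SimpleGraph.coe_edgeFinset, Set.ncard_coe_finset]
  obtain ⟨⟨T, hTc, hT⟩, hmin⟩ := hγ
  have hTsplit : (T ∩ s).card + (T ∩ t).card = γ := by
    rw [← hTc, ← Finset.card_union_of_disjoint
      (Finset.disjoint_of_subset_left Finset.inter_subset_right
        (Finset.disjoint_of_subset_right Finset.inter_subset_right hdisj)),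
      ← Finset.inter_union_distrib_left, hst, Finset.inter_univ]
  -- a general statement for one orientation
  have key : ∀ (s t : Finset V), G.IsBipartiteWith (s : Set V) (t : Set V) →
      (∀ v, v ∈ s ∨ v ∈ t) → ∀ S ⊆ s, S.card + 1 ≤ (T ∩ s).card →
      (T ∩ s).card + (T ∩ t).card = γ →
      ∃ y ∈ t, ∀ x ∈ S, ¬ G.Adj x y := by
    intro s t h hcov S hS hSc hsplit
    by_contra hcon
    push Not at hcon
    have hTD : (S ∪ (T ∩ t)).card ∈ {k : ℕ | ∃ S : Finset V, S.card = k ∧
        ∀ v, ∃ u ∈ S, G.Adj v u} := by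
      refine ⟨_, rfl, ?_⟩
      intro v
      rcases hcov v with hv | hv
      · obtain ⟨u, hu, hadj⟩ := hT v
        refine ⟨u, Finset.mem_union_right _ (Finset.mem_inter.mpr ⟨hu, ?_⟩), hadj⟩
        exact h.mem_of_mem_adj (Finset.mem_coe.mpr hv) hadj
      · obtain ⟨x, hx, hadj⟩ := hcon v hv
        exact ⟨x, Finset.mem_union_left _ hx, hadj.symm⟩
    have h1 := hmin hTD
    have h2 := Finset.card_union_le S (T ∩ t)
    omega
  -- nonempty
  have hne : ∃ v : V, True := by
    by_contra hcon
    push Not at hcon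
    have : T = ∅ := by
      apply Finset.eq_empty_of_forall_notMem
      intro v _
      exact hcon v
    rw [this] at hTc
    simp at hTc
    omega
  have hpos : ∀ (s t : Finset V), G.IsBipartiteWith (s : Set V) (t : Set V) →
      (∀ v, v ∈ s ∨ v ∈ t) → 1 ≤ (T ∩ s).card := by
    intro s t h hcov
    obtain ⟨v, _⟩ := hne
    obtain ⟨w, hw⟩ := hiso v
    have : ∃ y, y ∈ t := by
      rcases h.mem_of_adj hw with ⟨_, h2⟩ | ⟨h1, _⟩
      · exact ⟨w, h2⟩
      · exact ⟨v, h1⟩
    obtain ⟨y, hy⟩ := this
    obtain ⟨u, hu, hadj⟩ := hT y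
    have hus : u ∈ s := h.symm.mem_of_mem_adj (Finset.mem_coe.mpr hy) hadj
    exact Finset.card_pos.mpr ⟨u, Finset.mem_inter.mpr ⟨hu, hus⟩⟩
  have hfin : ∀ (s t : Finset V), G.IsBipartiteWith (s : Set V) (t : Set V) →
      (∀ v, v ∈ s ∨ v ∈ t) → (T ∩ s).card + (T ∩ t).card = γ → s.card + t.card = n →
      (T ∩ t).card < (T ∩ s).card →
      4 * (m : ℤ) ≤ ((n : ℤ) - γ) * ((n : ℤ) - γ + 4) + 2 * γ - 2 := by
    intro s t h hcov hsplit hc hlt
    have hps := hpos s t h hcov
    have hpt := hpos t s h.symm (fun v => (hcov v).symm)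
    have h1 := half G s t h hiso ((T ∩ s).card - 1) ((T ∩ t).card - 1) (by omega)
      (fun S hS hSc => key s t h hcov S hS (by omega) hsplit)
      (fun S hS hSc => by
        obtain ⟨x, hx, hall⟩ := key t s h.symm (fun v => (hcov v).symm) S hS (by omega) (by omega)
        exact ⟨x, hx, fun y hy hadj => hall y hy hadj.symm⟩)
    rw [← hedge] at h1
    obtain ⟨p, hp⟩ : ∃ p, (T ∩ s).card = p + 1 := ⟨(T ∩ s).card - 1, by omega⟩
    obtain ⟨q, hq⟩ : ∃ q, (T ∩ t).card = q + 1 := ⟨(T ∩ t).card - 1, by omega⟩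
    rw [hp, hq] at h1 hsplit hlt
    simp only [Nat.add_sub_cancel] at h1
    have e1 : (γ : ℤ) = p + q + 2 := by omega
    have e2 : (n : ℤ) = s.card + t.card := by omega
    have e3 : (q : ℤ) + 1 ≤ p := by omega
    rw [e1, e2]
    nlinarith [sq_nonneg (((s.card : ℤ) - q) - ((t.card : ℤ) - p))]
  have hint : 4 * (m : ℤ) ≤ ((n : ℤ) - γ) * ((n : ℤ) - γ + 4) + 2 * γ - 2 := by
    rcases lt_trichotomy (T ∩ s).card (T ∩ t).card with hlt | heq | hlt
    · exact hfin t s h'.symm (fun v => (hcover v).symm) (by omega) (by omega) hlt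
    · exfalso
      obtain ⟨k, hk⟩ := hodd
      omega
    · exact hfin s t h' hcover hTsplit hcard hlt
  rw [Int.le_floor]
  have hreal : 4 * (m : ℝ) ≤ ((n : ℝ) - γ) * ((n : ℝ) - γ + 4) + 2 * γ - 2 := by
    exact_mod_cast hint
  push_cast
  linarith

end Pool.Agent.Results.MP_0479e2_co.EdgeBound
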